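import Pool.Agent.L0h61.T4.C2N
import Pool.Agent.L0h4.T3.Cvm

/-!
# The algebraic converse for `y² = x³ - D³`
-/

set_option autoImplicit false
set_option linter.unusedSectionVars false

namespace Pool.Agent.L0h61.T4

open Pool.Agent.Y696 Pool.Agent.Y715.T.Lat Pool.Agent.W192.HK
open Pool.Agent.L0h86.F3
open NumberField IsDedekindDomain IsCyclotomicExtension.Rat WithZero WeierstrassCurve
open Pool.Agent.H921R2.TatePole Pool.Agent.H82R3.EK
open Pool.Agent.L0h4.TC (LocZ SqZ PtZ)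
open Pool.Agent.Y698.SG (lg lg_one lg_neg_one lg_mul sgn_mul sgn_prod ix)
open Pool.Agent.Y698.SG.Cv (WF)
open Pool.Agent.TH841.NF.D (Sha)
open Pool.Agent.Y700 (VR)
open Pool.Agent.L0h80.F3 (N1_prod ix_cases fx prod_pf sum_bt mem_ix bt_cj cj_neg cj_add cj_ez)
open Pool.Agent.L0h23.FDE (cI eD cI_mem cI_cI pf_cI Sys)
open Pool.Agent.L0h4.T3 hiding S_C2 t_C2 conv
open Pool.Agent.L0h4.T4

/-! ### the curve -/

lemma vr_WN (K : Type) [Field K] (D : ℕ) :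
    VR (WF K (-3 * (-(D : ℤ))) (3 * (-(D : ℤ)) ^ 2)) (WN K D) 1 (-(D : K)) 0 0 where
  u0 := one_ne_zero
  e1 := by
    show (1 : K) * 0 = 0 + 2 * 0
    ring
  e2 := by
    show (1 : K) ^ 2 * 0 = ((-3 * (-(D : ℤ)) : ℤ) : K) - 0 * 0 + 3 * (-(D : K)) - 0 ^ 2
    push_cast
    ring
  e3 := by
    show (1 : K) ^ 3 * 0 = 0 + (-(D : K)) * 0 + 2 * 0
    ring
  e4 := by
    show (1 : K) ^ 4 * 0 = ((3 * (-(D : ℤ)) ^ 2 : ℤ) : K) - 0 * 0 +
      2 * (-(D : K)) * ((-3 * (-(D : ℤ)) : ℤ) : K) - (0 + (-(D : K)) * 0) * 0 +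
      3 * (-(D : K)) ^ 2 - 2 * 0 * 0
    push_cast
    ring
  e6 := by
    show (1 : K) ^ 6 * (-(D : K) ^ 3) = 0 + (-(D : K)) * ((3 * (-(D : ℤ)) ^ 2 : ℤ) : K) +
      (-(D : K)) ^ 2 * ((-3 * (-(D : ℤ)) : ℤ) : K) + (-(D : K)) ^ 3 - 0 * 0 - 0 ^ 2 -
      (-(D : K)) * 0 * 0
    push_cast
    ring

lemma WN_Δ (K : Type) [Field K] (D : ℕ) : (WN K D).Δ = -(432 * (D : K) ^ 6) := by
  simp only [WeierstrassCurve.Δ, WeierstrassCurve.b₂, WeierstrassCurve.b₄, WeierstrassCurve.b₆,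
    WeierstrassCurve.b₈, WN]
  ring

lemma WN_ne (K : Type) [Field K] [CharZero K] {D : ℕ} (hD : D ≠ 0) : (WN K D).Δ ≠ 0 := by
  rw [WN_Δ]
  have : (D : K) ≠ 0 := Nat.cast_ne_zero.2 hD
  refine neg_ne_zero.2 (mul_ne_zero ?_ (pow_ne_zero _ this))
  norm_num

/-! ### the shift of the system -/

section
variable {Q P : Finset ℕ} {ϖ : ℕ → eis}

/-- conjugation exchanges the two systems -/
lemma sys_shift (h : Dt Q P ϖ) (ε : ZMod 2) (hS : Sys Q P ϖ ε) : Sys Q P ϖ (ε + 1) := by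
  classical
  have hX := fx h
  intro x hx
  have hmm : ∀ i ∈ ix Q P, ∀ j ∈ ix Q P, mm (pf Q ϖ) (cI Q i) (cI Q j) = mm (pf Q ϖ) i j := by
    intro i _ j _
    unfold mm
    rw [pf_cI, pf_cI, Pool.Agent.L0h80.F3.sy_cj]
  have key : ∀ i ∈ ix Q P, x (cI Q i) = 0 := by
    refine hS (fun i => x (cI Q i)) ?_
    intro j hj
    have h1 := hx (cI Q j) (cI_mem hj)
    have s1 : ∀ f : ℕ × Bool → ZMod 2, ∑ i ∈ (ix Q P).erase (cI Q j), f i =
        ∑ i ∈ (ix Q P).erase j, f (cI Q i) := by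
      intro f
      refine Finset.sum_nbij' (cI Q) (cI Q) ?_ ?_ (fun j _ => cI_cI j) (fun j _ => cI_cI j) ?_
      · intro i hi
        rw [Finset.mem_erase] at hi ⊢
        exact ⟨fun h2 => hi.1 (by rw [← h2, cI_cI]), cI_mem hi.2⟩
      · intro i hi
        rw [Finset.mem_erase] at hi ⊢
        exact ⟨fun h2 => hi.1 (by rw [← cI_cI (Q := Q) i, h2, cI_cI]), cI_mem hi.2⟩
      · intro i _
        rw [cI_cI]
    rw [s1, s1, cI_cI] at h1
    have s2 : ∑ i ∈ (ix Q P).erase j, mm (pf Q ϖ) (cI Q i) (cI Q j) * x (cI Q i) =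
        ∑ i ∈ (ix Q P).erase j, mm (pf Q ϖ) i j * x (cI Q i) :=
      Finset.sum_congr rfl fun i hi => by rw [hmm i (Finset.mem_of_mem_erase hi) j hj]
    have s3 : ∑ i ∈ (ix Q P).erase j, mm (pf Q ϖ) (cI Q i) (cI Q j) =
        ∑ i ∈ (ix Q P).erase j, mm (pf Q ϖ) i j :=
      Finset.sum_congr rfl fun i hi => by rw [hmm i (Finset.mem_of_mem_erase hi) j hj]
    rw [s2, s3, nb_cI h hj] at h1
    have s4 : F4.tr (F4.w * bt (pf Q ϖ (cI Q j))) =
        F4.tr (F4.w * bt (pf Q ϖ j)) + F4.tr (bt (pf Q ϖ j)) := by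
      rw [pf_cI, bt_cj (hX.pd j hj).n1]
      generalize bt (pf Q ϖ j) = b
      revert b
      decide
    rw [s4] at h1
    rw [cI_cI]
    have s5 := z2_self (F4.tr (bt (pf Q ϖ j)) * x (cI Q j))
    linear_combination h1 - s5
  intro i hi
  have := key (cI Q i) (cI_mem hi)
  rwa [cI_cI] at this

variable {x : ℕ × Bool → ZMod 2} {ε : ZMod 2}

/-- the sum of the equations -/
lemma sum_laN (h : Dt Q P ϖ) (hK : Kn Q P ϖ (ε + 1) x)
    (hs : ∑ i ∈ ix Q P, bt (pf Q ϖ i) = F4.of ε) :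
    F4.tr (F4.w * F4.w * bt (zT Q ϖ (TT Q P x))) = 0 := by
  classical
  have hX := fx h
  have htr : ∀ (s : Finset (ℕ × Bool)) (f : ℕ × Bool → F4), F4.tr (∑ i ∈ s, f i) =
      ∑ i ∈ s, F4.tr (f i) := by
    intro s f
    induction s using Finset.induction_on with
    | empty => rfl
    | insert q S hq ih =>
      rw [Finset.sum_insert hq, Finset.sum_insert hq, ← ih]
      rfl
  have e1 : bt (zT Q ϖ (TT Q P x)) = ∑ i ∈ TT Q P x, bt (pf Q ϖ i) :=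
    (N1_prod fun i hi => (hX.pd i (TT_sub x hi)).n1).2
  rw [e1, Finset.mul_sum, htr]
  have e2 := sum_TT (x := x) (Finset.Subset.refl (ix Q P))
    fun i => F4.tr (F4.w * F4.w * bt (pf Q ϖ i))
  rw [Finset.inter_eq_left.2 (TT_sub x)] at e2
  rw [← e2]
  -- the sum of the equations
  have s0 : ∑ j ∈ ix Q P, (∑ i ∈ (ix Q P).erase j, mm (pf Q ϖ) i j * x i +
      (∑ i ∈ (ix Q P).erase j, mm (pf Q ϖ) i j + F4.tr (F4.w * bt (pf Q ϖ j)) +
        (ε + 1) * F4.tr (bt (pf Q ϖ j))) * x j +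
      F4.tr (bt (pf Q ϖ j)) * x (cI Q j)) = 0 := Finset.sum_eq_zero hK.eq
  have s1 : ∑ j ∈ ix Q P, ∑ i ∈ (ix Q P).erase j, mm (pf Q ϖ) i j * x i =
      ∑ j ∈ ix Q P, (∑ i ∈ (ix Q P).erase j, mm (pf Q ϖ) j i) * x j := by
    have k1 : ∀ (f : ℕ × Bool → ℕ × Bool → ZMod 2), ∑ j ∈ ix Q P, ∑ i ∈ (ix Q P).erase j, f i j =
        ∑ j ∈ ix Q P, ∑ i ∈ (ix Q P).erase j, f j i := by
      intro f
      refine Finset.sum_comm' ?_
      intro a b
      simp only [Finset.mem_erase]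
      tauto
    rw [k1 fun i j => mm (pf Q ϖ) i j * x i]
    refine Finset.sum_congr rfl fun j _ => ?_
    rw [Finset.sum_mul]
  have s2 : ∀ j ∈ ix Q P, (∑ i ∈ (ix Q P).erase j, mm (pf Q ϖ) j i) +
      ∑ i ∈ (ix Q P).erase j, mm (pf Q ϖ) i j =
      ε * F4.tr (bt (pf Q ϖ j)) + F4.tr (bt (pf Q ϖ j)) := by
    intro j hj
    rw [← Finset.sum_add_distrib]
    have k1 : ∀ i ∈ (ix Q P).erase j, mm (pf Q ϖ) j i + mm (pf Q ϖ) i j =
        F4.tr (bt (pf Q ϖ j) * bt (pf Q ϖ i)) := by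
      intro i hi
      obtain ⟨h1, h2⟩ := Finset.mem_erase.1 hi
      exact Pool.Agent.L0h23.FR.t_REC _ _ (hX.pd j hj) (hX.pd i h2) (hX.ne j hj i h2 (Ne.symm h1))
    rw [Finset.sum_congr rfl k1, ← htr, ← Finset.mul_sum,
      Finset.sum_erase_eq_sub hj, hs]
    have k2 : ∀ (b : F4) (e : ZMod 2), (b * (F4.of e - b)).tr = e * b.tr + b.tr := by decide
    exact k2 _ _
  have s3 : ∑ j ∈ ix Q P, F4.tr (bt (pf Q ϖ j)) * x (cI Q j) =
      ∑ j ∈ ix Q P, F4.tr (bt (pf Q ϖ j)) * x j := by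
    refine Finset.sum_nbij' (cI Q) (cI Q) (fun j hj => cI_mem hj) (fun j hj => cI_mem hj)
      (fun j _ => cI_cI j) (fun j _ => cI_cI j) ?_
    intro j hj
    rw [nb_cI h hj]
  rw [Finset.sum_add_distrib, Finset.sum_add_distrib, s1, s3, ← Finset.sum_add_distrib,
    ← Finset.sum_add_distrib] at s0
  rw [← s0]
  refine Finset.sum_congr rfl fun j hj => ?_
  have h2 := s2 j hj
  have h3 := z2_self (ε * F4.tr (bt (pf Q ϖ j)) * x j)
  have h4 := z2_self (F4.tr (bt (pf Q ϖ j)) * x j)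
  have h5 : F4.tr (F4.w * F4.w * bt (pf Q ϖ j)) =
      F4.tr (F4.w * bt (pf Q ϖ j)) + F4.tr (bt (pf Q ϖ j)) := by
    generalize bt (pf Q ϖ j) = b
    revert b
    decide
  rw [h5]
  linear_combination -h2 * x j - h3 - h4

end

/-- the two residues modulo four -/
lemma mod4_ofN {z : eis} (hz : N1 z) (h : F4.tr (F4.w * F4.w * bt z) = 0) :
    (4 : eis) ∣ z - 1 ∨ (4 : eis) ∣ z - la := by
  obtain ⟨u, rfl⟩ := hz
  have e1 : (1 + 2 * la * u : eis) = 1 + 2 * (la * u) := by ring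
  rw [e1, bt_eq] at h
  rw [e1]
  obtain ⟨a, b, hab⟩ := ez_ex (la * u)
  rw [hab, rho_ez] at h
  rw [hab]
  have h1 : (a : ZMod 2) = 0 := by
    have k : ∀ a b : ZMod 2, F4.tr (F4.w * F4.w * ⟨a, b⟩) = 0 → a = 0 := by decide
    exact k _ _ h
  have h2 : a % 2 = 0 := by
    rw [ZMod.intCast_zmod_eq_zero_iff_dvd] at h1
    omega
  rcases Int.emod_two_eq_zero_or_one b with h3 | h3
  · left
    refine ⟨ez (a / 2) (b / 2), ?_⟩
    have e4 : ez a b = 2 * ez (a / 2) (b / 2) := by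
      have e5 : (2 : eis) = ez 2 0 := by
        rw [ez_int]
        norm_cast
      rw [e5, ez_mul]
      congr 1 <;> omega
    rw [e4]
    ring
  · right
    refine ⟨ez (a / 2) ((b - 1) / 2), ?_⟩
    have e4 : ez a b = 2 * ez (a / 2) ((b - 1) / 2) + ez 0 1 := by
      have e5 : (2 : eis) = ez 2 0 := by
        rw [ez_int]
        norm_cast
      rw [e5, ez_mul, ez_add]
      congr 1 <;> omega
    have e6 : la = 2 * ez 0 1 + 1 := by
      unfold la ez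
      push_cast
      ring
    rw [e6]
    linear_combination 2 * e4

section
variable {Q P : Finset ℕ} {ϖ : ℕ → eis} {T : Finset (ℕ × Bool)} {D : ℕ}

lemma val_succ (e : ZMod 2) : ((-1 : eis)) ^ (e + 1).val = -(-1) ^ e.val := by
  rcases z2 e with rfl | rfl
  · rw [zero_add, show ZMod.val (1 : ZMod 2) = 1 from rfl, show ZMod.val (0 : ZMod 2) = 0 from rfl]
    ring
  · rw [z2_self, show ZMod.val (1 : ZMod 2) = 1 from rfl, show ZMod.val (0 : ZMod 2) = 0 from rfl]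
    ring

lemma eps_prodN (h : Dt Q P ϖ) (hD : D = ∏ q ∈ Q ∪ P, q) :
    ((-((D : ℕ) : ℤ) : ℤ) : eis) = (-1) ^ (eD D + 1).val * ∏ i ∈ ix Q P, pf Q ϖ i := by
  rw [val_succ, Int.cast_neg, eps_prod h hD]
  ring

/-- locally solvable everywhere -/
theorem loc_evN (h : Dt Q P ϖ)
    (hD : D = ∏ q ∈ Q ∪ P, q) (h4 : D % 4 = 1) {x : ℕ × Bool → ZMod 2}
    (hK : Kn Q P ϖ (eD D + 1) x) (p : ℕ) [hp : Fact p.Prime] :
    Pool.Agent.L0h4.T3.LZ ℚ_[p] (-(D : ℤ)) (zT Q ϖ (TT Q P x)) := by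
  classical
  have hDN := D_ne' h hD
  have hDZ : -((D : ℕ) : ℤ) ≠ 0 := by
    rw [neg_ne_zero]
    exact_mod_cast hDN
  have hpr := eps_prodN h hD
  by_cases h2 : p = 2
  · subst h2
    refine t_C2N _ _ (by omega) (mod4_ofN (N1_zT h (TT_sub x)) (sum_laN h hK ?_))
    rw [sum_bt h hD h4]
    unfold eD
    split_ifs
    · rw [map_zero]
    · rw [map_one]
  by_cases h3 : p = 3
  · subst h3
    exact Pool.Agent.L0h61.T3.t_C3 hp _ _ hDZ (la_zT h (TT_sub x))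
  by_cases hQ : p ∈ Q
  · have hI := h.q p hQ
    have hj : (p, false) ∈ ix Q P := mem_ix.2 (Or.inl ⟨rfl, hQ⟩)
    have hc : cI Q (p, false) = (p, false) := if_pos hQ
    have hpf : pf Q ϖ (p, false) = -(p : eis) := if_pos hQ
    have hπ := ((fx h).pd _ hj).pr
    refine Pool.Agent.L0h61.T3.t_CI p _ _ hI.odd hI.m3 hDZ ?_
    rcases z2 (x (p, false)) with h5 | h5
    · left
      have h6 := sy_out h hK hj h5
      rw [hc, h5, ZMod.val_zero, pow_zero, one_mul, hpf] at h6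
      exact h6
    · right
      obtain ⟨z₁, D₁, e1, e2, e3⟩ := sy_in h hK hj h5 hpr
      rw [hc, h5, show ZMod.val (1 : ZMod 2) = 1 from rfl, pow_one, sy_mul' hπ] at e3
      have e4 : sy (pf Q ϖ (p, false)) (-1) = 1 := by
        refine (sg_neg h hj).1.one ?_
        rw [(sg_neg h hj).2, nb_self h hj hc]
      rw [e4, one_mul] at e3
      rw [hpf] at e1 e2 e3
      exact ⟨z₁, D₁, e1, e2, e3⟩
  by_cases hP : p ∈ P
  · have hi : (p, false) ∈ ix Q P := mem_ix.2 (Or.inr hP)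
    have hj : (p, true) ∈ ix Q P := mem_ix.2 (Or.inr hP)
    have hPm : p ∈ Q ∪ P := Finset.mem_union_right _ hP
    have hci : cI Q (p, false) = (p, true) := if_neg hQ
    have hcj : cI Q (p, true) = (p, false) := if_neg hQ
    have hpi : pf Q ϖ (p, false) = ϖ p := if_neg hQ
    have hpj : pf Q ϖ (p, true) = cj (ϖ p) := if_neg hQ
    have hDe : D = p * ∏ q ∈ (Q ∪ P).erase p, q := by
      rw [hD, Finset.mul_prod_erase (Q ∪ P) (fun q => q) hPm]
    refine Pool.Agent.L0h61.T3.t_CS p _ (-((∏ q ∈ (Q ∪ P).erase p, q : ℕ) : ℤ)) _ (ϖ p)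
      (h.p p hP).m3 ?_ ?_ (h.nm p hP) (x (p, false)) (x (p, true)) ?_ ?_ ?_ ?_
    · have h5 : ((D : ℕ) : ℤ) = (p : ℤ) * ((∏ q ∈ (Q ∪ P).erase p, q : ℕ) : ℤ) := by
        exact_mod_cast hDe
      rw [h5]
      ring
    · rw [dvd_neg]
      intro h5
      have h6 : p ∣ ∏ q ∈ (Q ∪ P).erase p, q := by exact_mod_cast h5
      obtain ⟨q, hq, hpq⟩ := (Prime.dvd_finsetProd_iff hp.out.prime _).1 h6
      rw [Finset.mem_erase, Finset.mem_union] at hq
      have hqp : q.Prime := hq.2.elim (fun h7 => (h.q q h7).pr) (fun h7 => (h.p q h7).pr)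
      exact hq.1 ((Nat.prime_dvd_prime_iff_eq hp.out hqp).1 hpq).symm
    · intro h5
      have h6 := sy_out h hK hi h5
      rw [hci, hpi] at h6
      exact h6
    · intro h5
      have h6 := sy_in h hK hi h5 hpr
      rw [hci, hpi] at h6
      exact h6
    · intro h5
      have h6 := sy_out h hK hj h5
      rw [hcj, hpj] at h6
      exact h6
    · intro h5
      have h6 := sy_in h hK hj h5 hpr
      rw [hcj, hpj] at h6
      exact h6
  have hpD : ¬ p ∣ D := by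
    rw [hD]
    intro h5
    obtain ⟨q, hq, hpq⟩ := (Prime.dvd_finsetProd_iff hp.out.prime _).1 h5
    rw [Finset.mem_union] at hq
    have hqp : q.Prime := hq.elim (fun h7 => (h.q q h7).pr) (fun h7 => (h.p q h7).pr)
    have h6 := (Nat.prime_dvd_prime_iff_eq hp.out hqp).1 hpq
    rw [← h6] at hq
    exact hq.elim hQ hP
  refine Pool.Agent.L0h61.T3.t_CG p _ _ h2 h3 (fun h5 => hpD ?_) ?_
  · rw [dvd_neg] at h5
    exact_mod_cast h5
  · intro h5
    have h6 : (p : ℤ) ∣ nz (zT Q ϖ (TT Q P x)) := h5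
    have h7 := (Nat.prime_iff_prime_int.1 hp.out).dvd_of_dvd_pow (h6.trans (nz_zT h hD (TT_sub x)))
    exact hpD (by exact_mod_cast h7)

/-- **the converse, with the system** -/
theorem conv_sysN (h : Dt Q P ϖ)
    (hD : D = ∏ q ∈ Q ∪ P, q) (h4 : D % 4 = 1) (hns : ¬ Sys Q P ϖ (eD D + 1))
    (hf : Finite (WN ℚ D).toAffine.Point) :
    ∃ y : Sha (WN ℚ D), y ≠ 0 ∧ y + y = 0 := by
  classical
  obtain ⟨x, hK⟩ := exists_Kn hns
  obtain ⟨z, hz⟩ : ∃ z, z = zT Q ϖ (TT Q P x) := ⟨_, rfl⟩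
  have hD0 := D_ne' h hD
  have hDZ0 : (D : ℤ) ≠ 0 := by exact_mod_cast hD0
  obtain ⟨E, hE⟩ : ∃ E : ℤ, E = -(D : ℤ) := ⟨_, rfl⟩
  have hDZ : E ≠ 0 := by rw [hE, neg_ne_zero]; exact hDZ0
  have hDQ : (E : ℚ) ≠ 0 := by exact_mod_cast hDZ
  have hloc : ∀ (p : ℕ) [Fact p.Prime], Pool.Agent.L0h4.T3.LZ ℚ_[p] E z := fun p _ => by
    rw [hz, hE]
    exact loc_evN h hD h4 hK p
  have hne : (TT Q P x).Nonempty := by
    obtain ⟨i, hi, h1⟩ := hK.nz
    exact ⟨i, mem_TT.2 ⟨hi, (z2 (x i)).resolve_left h1⟩⟩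
  obtain ⟨π₁, p1, a1, b1⟩ := zT_prime h (TT_sub x) hne
  rw [← hz] at a1 b1
  have hz0 : z ≠ 0 := by
    intro h0
    rw [h0] at b1
    exact b1 (dvd_zero _)
  have hlaD : ¬ la ∣ (E : eis) := by
    intro h1
    have h2 := D3 h hD
    have h3 := (la_dvd_iff E 0).1 (by
      have e : (E : eis) + ((0 : ℤ) : eis) * omr = (E : eis) := by push_cast; ring
      rw [e]
      exact h1)
    rw [hE] at h3
    omega
  have hlaz : ¬ la ∣ z := by
    rw [hz]
    exact la_nzT h (TT_sub x)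
  have hE2 : 0 < E ^ 2 := by positivity
  have hb : 3 * E ^ 2 ≠ 0 := mul_ne_zero (by norm_num) (pow_ne_zero 2 hDZ)
  have hab : (-3 * E) ^ 2 - 4 * (3 * E ^ 2) < 0 := by
    nlinarith
  have nb : ¬ IsSquare ((3 * E ^ 2 : ℤ) : ℚ) := by
    rintro ⟨s, hs⟩
    have h5 : IsSquare (3 : ℚ) := by
      refine ⟨s / E, ?_⟩
      push_cast at hs
      field_simp
      linear_combination hs
    have h6 : IsSquare (3 : ℤ) := by
      have h7 : IsSquare ((3 : ℤ) : ℚ) := by exact_mod_cast h5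
      exact Rat.isSquare_intCast_iff.1 h7
    obtain ⟨t, ht⟩ := h6
    have h8 : t < 2 := by nlinarith
    have h9 : -2 < t := by nlinarith
    interval_cases t <;> omega
  have nab : ¬ IsSquare (((-3 * E : ℤ) : ℚ) ^ 2 - 4 * ((3 * E ^ 2 : ℤ) : ℚ)) := by
    rintro ⟨s, hs⟩
    push_cast at hs
    have h5 : 0 < (E : ℚ) ^ 2 := by positivity
    nlinarith [mul_self_nonneg s]
  have hV : VR (WF ℚ (-3 * E) (3 * E ^ 2)) (WN ℚ D) 1 (-(D : ℚ)) 0 0 := by
    rw [hE]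
    exact vr_WN ℚ D
  have hVD := WN_ne ℚ hD0
  have hfW : Finite (WF ℚ (-3 * E) (3 * E ^ 2)).toAffine.Point :=
    Finite.of_equiv _ (hV.equiv hVD).toEquiv
  obtain ⟨y, hy0, hy2⟩ := Pool.Agent.L0h23.SZ.Ad.exists_shaZ (K := ℚ) hb hab nb nab hfW
    (u := (cx z : ℚ) + (cy z : ℚ)) (v := -((cy z : ℚ) / (E : ℚ)))
    (by
      have h5 : (nz z : ℚ) ≠ 0 := by
        have := nz_pos hz0
        exact_mod_cast this.ne'
      intro h6
      apply h5
      rw [← h6]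
      unfold nz
      push_cast
      field_simp
      ring)
    (by
      intro w
      have : Fact (below w : ℕ).Prime := ⟨(below w).2⟩
      have h5 := (hloc (below w : ℕ)).map (Pool.Agent.Y698.SG.Th.pth (v := w) (p := (below w : ℕ)) (nm_eq w).2.2)
      simp only [map_add, map_mul, map_div₀, map_intCast, map_ofNat, map_neg] at h5 ⊢
      exact h5)
    (n1_of hDZ p1 a1 b1) (n2_of hDZ hlaD hlaz)
  have hI := (Pool.Agent.Y655.XT.isoVR hV hVD).sha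
  refine ⟨hI.symm y, fun h5 => hy0 ?_, ?_⟩
  · have := congrArg hI h5
    rwa [AddEquiv.apply_symm_apply, map_zero] at this
  · rw [← map_add, hy2, map_zero]

/-- the criterion and the shifted system -/
theorem cr4_sysN (h : Dt Q P ϖ) (hD : D = ∏ q ∈ Q ∪ P, q) (h4 : D % 4 = 1) :
    Cr4 Q P ϖ ↔ Sys Q P ϖ (eD D + 1) := by
  rw [Pool.Agent.L0h23.FDE.cr4_sys Pool.Agent.L0h80.F3.t_GEN
      Pool.Agent.L0h23.FR.t_REC Pool.Agent.L0h61.T3.t_LIN h hD h4]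
  refine ⟨sys_shift h _, fun h1 => ?_⟩
  have h2 := sys_shift h _ h1
  rwa [add_assoc, z2_self, add_zero] at h2

/-- **the converse** -/
theorem convN (h : Dt Q P ϖ) {D : ℕ} (hD : D = ∏ q ∈ Q ∪ P, q)
    (h4 : D % 4 = 1) (hns : ¬ Cr4 Q P ϖ) (hf : Finite (WN ℚ D).toAffine.Point) :
    ∃ y : Sha (WN ℚ D), y ≠ 0 ∧ y + y = 0 :=
  conv_sysN h hD h4 (fun h1 => hns ((cr4_sysN h hD h4).2 h1)) hf

end

end Pool.Agent.L0h61.T4
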