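import Pool.Agent.L0h4.T4.Def
import Pool.Agent.L0h4.T3.C2

/-!
# The converse for `y² = x³ - D³`: the prime two
-/

set_option autoImplicit false
set_option linter.unusedSectionVars false

namespace Pool.Agent.L0h61.T4

open Pool.Agent.Y696 Pool.Agent.Y715.T.Lat Pool.Agent.W192.HK
open Pool.Agent.L0h86.F3
open Pool.Agent.L0h4.TC (LocZ SqZ PtZ)
open Pool.Agent.L0h4.T3 hiding S_C2 t_C2
open Pool.Agent.L0h4.T4

/-- **C-2 for `D ≡ 3 mod 4`** -/
theorem t_C2N : S_C2N := by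
  intro D z hD4 hz
  have hD0 : D ≠ 0 := by rintro rfl; norm_num at hD4
  have hDQ : (D : ℚ_[2]) ≠ 0 := by exact_mod_cast hD0
  have hD2 : D % 2 = 1 := by omega
  unfold Pool.Agent.L0h4.T3.LZ
  obtain ⟨x, hx⟩ : ∃ x, x = cx z := ⟨_, rfl⟩
  obtain ⟨y, hy⟩ : ∃ y, y = cy z := ⟨_, rfl⟩
  have hzz : z = ez x y := by rw [hx, hy]; exact cxy z
  rw [← hx, ← hy]
  -- the point with `x = 1 / 4`
  obtain ⟨t, ht0, ht⟩ := sq8' ((8 * D ^ 3 : ℤ) : ℤ_[2])
  push_cast [c8Z] at ht
  have hX : (t / 8) ^ 2 = (1 / 4 + D : ℚ_[2]) * ((1 / 4 + D) ^ 2 - 3 * D * (1 / 4 + D) + 3 * D ^ 2) := by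
    rw [div_pow, ← ht]
    ring
  have hY0 : t / 8 ≠ 0 := div_ne_zero ht0 (by norm_num)
  have hX0 : (1 / 4 + D : ℚ_[2]) ≠ 0 := by
    intro h0
    rw [h0, zero_mul] at hX
    exact hY0 (pow_eq_zero_iff (n := 2) (by norm_num) |>.1 hX)
  have hNne : x ≠ 0 → (x : ℚ_[2]) ^ 2 - x * y + y ^ 2 ≠ 0 := by
    intro hx0
    have h1 : x ^ 2 - x * y + y ^ 2 ≠ 0 := by
      intro h0
      have h2 : y ^ 2 = 0 := by nlinarith [sq_nonneg (2 * x - y), sq_nonneg y]
      have h3 : y = 0 := pow_eq_zero_iff (n := 2) (by norm_num) |>.1 h2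
      rw [h3] at h0
      apply hx0
      have h4 : x ^ 2 = 0 := by linear_combination h0
      exact pow_eq_zero_iff (n := 2) (by norm_num) |>.1 h4
    exact_mod_cast h1
  have e4 : ∀ a b : ℤ, (4 : eis) ∣ ez a b → ∃ c d : ℤ, a = 4 * c ∧ b = 4 * d := by
    rintro a b ⟨s, hs⟩
    obtain ⟨c, d, rfl⟩ := ez_ex s
    have h5 : ez a b = ez 4 0 * ez c d := by
      rw [ez_int]
      exact_mod_cast hs
    rw [ez_mul] at h5
    obtain ⟨h6, h7⟩ := ez_inj h5
    exact ⟨c, d, by rw [h6]; ring, by rw [h7]; ring⟩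
  rcases hz with hz | hz
  · -- `z ≡ 1`
    have e1 : z - 1 = ez (x - 1) y := by
      rw [hzz]
      unfold ez
      push_cast
      ring
    rw [e1] at hz
    obtain ⟨c, d, hc, hd⟩ := e4 _ _ hz
    rcases c2_main D (x := x) (y := y) (c := c) (d := d) (by omega) hd hD2 with h | h
    · exact Or.inl (h.sqz hD0)
    · exact Or.inr (Or.inr (ptw hD0 (hNne (by omega)) hY0 hX h))
  · -- `z ≡ √-3`
    have e1 : z - la = ez (x - 1) (y - 2) := by
      rw [hzz]
      unfold la ez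
      push_cast
      ring
    rw [e1] at hz
    obtain ⟨c, d, hc, hd⟩ := e4 _ _ hz
    obtain rfl' : x = 4 * c + 1 := by omega
    obtain hy' : y = 4 * d + 2 := by omega
    obtain ⟨j, hj⟩ : ∃ j, D = 3 + 4 * j := ⟨D / 4, by omega⟩
    rcases c2_main D (x := D * (2 * y - x)) (y := D * (y - 2 * x))
        (c := D * (2 * d - c) + 3 * j + 2) (d := D * (d - 2 * c)) (by
          rw [rfl', hy']
          linear_combination (3 : ℤ) * hj) (by rw [rfl', hy']; ring) hD2 with h | h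
    · right
      left
      refine SqW.sqz0 hD0 ?_
      refine (h.mul (SqW.sq (0 : ℚ_[2]) 1)).cast ?_ ?_
      · push_cast; ring
      · push_cast; ring
    · right
      right
      -- translation by the point of order two
      set X : ℚ_[2] := 1 / 4 + D with hXd
      set Y : ℚ_[2] := t / 8 with hYd
      have hY2 : Y ^ 2 ≠ 0 := pow_ne_zero 2 hY0
      refine ptw (X := 3 * D ^ 2 / X) (Y := -(3 * D ^ 2 * Y / X ^ 2)) hD0 (hNne (by omega)) ?_ ?_ ?_
      · exact neg_ne_zero.2 (div_ne_zero (mul_ne_zero (mul_ne_zero (by norm_num) (pow_ne_zero 2 hDQ))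
          hY0) (pow_ne_zero 2 hX0))
      · have hX' : Y ^ 2 = X * (X ^ 2 - 3 * D * X + 3 * D ^ 2) := hX
        field_simp
        linear_combination hX'
      · have h3 := (h.mul (SqW.sq (0 : ℚ_[2]) 1)).mul (SqW.sq ((X - 2 * D) / Y) (-D / Y))
        have hX' : Y ^ 2 = X * (X ^ 2 - 3 * D * X + 3 * D ^ 2) := hX
        refine h3.cast ?_ ?_
        · push_cast
          field_simp
          linear_combination (-((x : ℚ_[2]) * (D * 3 - X) - X * y)) * hX'
        · push_cast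
          field_simp
          linear_combination (-((y : ℚ_[2]) * (D * 3 - X) + X * x - X * y)) * hX'

end Pool.Agent.L0h61.T4
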